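import Mathlib
import Pool.Agent.Z894.LX.Stm
import Pool.Agent.TH922.KC.Mer1
import Pool.Agent.TH922.KC.Mer2

/-!
# Project LX, part 4: comparison of Hilbert functions for graded integral relations

Adapted from `compare2` and `finish2` of the library TH922/KC.
-/

set_option autoImplicit false
set_option linter.unusedSectionVars false

open MvPolynomial

namespace Pool.Agent.Y170.LX

open Pool.Agent.TH922.KC Pool.Agent.Z894.LX

section red

variable {κ Ω X : Type*} [Field κ] [Field Ω] [Algebra κ Ω] [Fintype X]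

/-- powers are combinations of small powers -/
theorem red_pow {w : X → Ω} {Q M : ℕ} {z : Ω} (hM : 0 < M) {g : ℕ → Ω}
    (hg : ∀ i < M, g i ∈ Pc κ w (Q * (M - i)))
    (hz : z ^ M = ∑ i ∈ Finset.range M, g i * z ^ i) (ρ : ℕ) :
    ∃ a : ℕ → Ω, (∀ k, (k ≤ ρ ∧ a k ∈ Pc κ w (Q * (ρ - k))) ∨ a k = 0) ∧
      z ^ ρ = ∑ k ∈ Finset.range M, a k * z ^ k := by
  induction ρ with
  | zero =>
    refine ⟨fun k => if k = 0 then 1 else 0, fun k => ?_, ?_⟩
    · by_cases hk : k = 0
      · left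
        rw [hk]
        refine ⟨le_rfl, ?_⟩
        beta_reduce
        rw [if_pos rfl, Nat.sub_zero, mul_zero]
        exact Pc_one
      · right
        beta_reduce
        rw [if_neg hk]
    · rw [Finset.sum_eq_single 0]
      · simp
      · intro k _ hk
        beta_reduce
        rw [if_neg hk, zero_mul]
      · intro h
        exact absurd (Finset.mem_range.mpr hM) h
  | succ ρ ih =>
    obtain ⟨a, ha1, ha2⟩ := ih
    refine ⟨fun k => (if k = 0 then 0 else a (k - 1)) + (if k < M then a (M - 1) * g k else 0),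
      fun k => ?_, ?_⟩
    · by_cases hkρ : k ≤ ρ + 1
      · left
        refine ⟨hkρ, Submodule.add_mem _ ?_ ?_⟩
        · by_cases hk : k = 0
          · rw [if_pos hk]
            exact Submodule.zero_mem _
          · rw [if_neg hk]
            rcases ha1 (k - 1) with h | h
            · have e : ρ + 1 - k = ρ - (k - 1) := by omega
              rw [e]
              exact h.2
            · rw [h]
              exact Submodule.zero_mem _
        · by_cases hk : k < M
          · rw [if_pos hk]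
            rcases ha1 (M - 1) with h | h
            · have h1 := Pc_mul h.2 (hg k hk)
              have e : Q * (ρ - (M - 1)) + Q * (M - k) = Q * (ρ + 1 - k) := by
                rw [← mul_add]
                congr 1
                have := h.1
                omega
              rwa [e] at h1
            · rw [h, zero_mul]
              exact Submodule.zero_mem _
          · rw [if_neg hk]
            exact Submodule.zero_mem _
      · right
        have h1 : k ≠ 0 := by omega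
        show (if k = 0 then 0 else a (k - 1)) + (if k < M then a (M - 1) * g k else 0) = 0
        rw [if_neg h1]
        have h2 : a (k - 1) = 0 := by
          rcases ha1 (k - 1) with h | h
          · exact absurd h.1 (by omega)
          · exact h
        rw [h2, zero_add]
        by_cases hk : k < M
        · rw [if_pos hk]
          have h3 : a (M - 1) = 0 := by
            rcases ha1 (M - 1) with h | h
            · exact absurd h.1 (by omega)
            · exact h
          rw [h3, zero_mul]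
        · rw [if_neg hk]
    · obtain ⟨M', rfl⟩ := Nat.exists_eq_succ_of_ne_zero hM.ne'
      have e1 : z ^ (ρ + 1) = (∑ k ∈ Finset.range M', a k * z ^ (k + 1)) + a M' * z ^ (M' + 1) := by
        rw [pow_succ, ha2, Finset.sum_mul, Finset.sum_range_succ]
        congr 1
        · refine Finset.sum_congr rfl fun k _ => ?_
          ring
        · ring
      have e2 : ∑ k ∈ Finset.range (M' + 1),
          ((if k = 0 then 0 else a (k - 1)) + (if k < M' + 1 then a (M' + 1 - 1) * g k else 0)) *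
            z ^ k = (∑ k ∈ Finset.range M', a k * z ^ (k + 1)) +
            ∑ k ∈ Finset.range (M' + 1), a M' * (g k * z ^ k) := by
        simp only [add_mul]
        rw [Finset.sum_add_distrib]
        congr 1
        · rw [Finset.sum_range_succ']
          simp
        · refine Finset.sum_congr rfl fun k hk => ?_
          rw [if_pos (Finset.mem_range.mp hk), Nat.add_sub_cancel]
          ring
      rw [e1]
      refine Eq.trans ?_ e2.symm
      rw [hz, Finset.mul_sum]

end red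

section cmp

variable {κ Ω : Type*} [Field κ] [Field Ω] [Algebra κ Ω] {n : ℕ} {β : Type*} [Fintype β]
  {Q : ℕ} {y : Fin (n + 1) → Ω} {z : β → Ω} {e : β → ℕ}

theorem compare3 (hQ : 0 < Q) (j0 : Fin (n + 1)) (hj0 : y j0 ≠ 0)
    (he : ∀ i, 0 < e i) (g : β → ℕ → Ω) (hg : ∀ i, ∀ k < e i, g i k ∈ Pc κ y (Q * (e i - k)))
    (hz : ∀ i, z i ^ e i = ∑ k ∈ Finset.range (e i), g i k * z i ^ k)
    (hF : ∀ j, y j / y j0 ∈ RF κ (Sum.elim (fun j => y j ^ Q) z) (Sum.inl j0)) :
    ∃ δ c1 c2 : ℕ, ∀ t,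
      Module.finrank κ (Pc κ (Sum.elim (fun j => y j ^ Q) z) t)
        ≤ δ * Module.finrank κ (Pc κ y (Q * (t + c1))) ∧
      δ * Module.finrank κ (Pc κ y (Q * t))
        ≤ Module.finrank κ (Pc κ (Sum.elim (fun j => y j ^ Q) z) (t + c2)) ∧ 0 < δ := by
  classical
  set u : Fin (n + 1) ⊕ β → Ω := Sum.elim (fun j => y j ^ Q) z with hu
  set s0 := y j0 ^ Q with hs0
  have hs00 : s0 ≠ 0 := pow_ne_zero _ hj0
  have hu0 : u (Sum.inl j0) = s0 := rfl
  have hu00 : u (Sum.inl j0) ≠ 0 := hs00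
  set KA := RF κ y j0 with hKA
  set v : β → Ω := fun i => z i / s0 with hv
  have hint : ∀ i, IsIntegral KA (v i) := by
    intro i
    have hc : ∀ k : Fin (e i), g i k / s0 ^ (e i - k) ∈ KA := by
      intro k
      have h2 := Pc_div_mem hj0 (hg i k k.2)
      rw [hs0, ← pow_mul]
      exact h2
    let c : Fin (e i) → KA := fun k => ⟨g i k / s0 ^ (e i - k), hc k⟩
    refine ⟨Polynomial.X ^ e i - ∑ k : Fin (e i), Polynomial.C (c k) * Polynomial.X ^ (k : ℕ),
      ?_, ?_⟩
    · refine (Polynomial.monic_X_pow (e i)).sub_of_left ?_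
      rw [Polynomial.degree_X_pow]
      exact Polynomial.degree_sum_fin_lt c
    · rw [Polynomial.eval₂_sub, Polynomial.eval₂_X_pow, Polynomial.eval₂_finsetSum, sub_eq_zero]
      have h3 : v i ^ e i = z i ^ e i / s0 ^ e i := by simp only [hv, div_pow]
      rw [h3, hz i, Finset.sum_range, Finset.sum_div]
      refine Finset.sum_congr rfl fun k _ => ?_
      rw [Polynomial.eval₂_mul, Polynomial.eval₂_C, Polynomial.eval₂_X_pow]
      have h4 : algebraMap KA Ω (c k) = g i k / s0 ^ (e i - k) := rfl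
      rw [h4]
      simp only [hv, div_pow]
      rw [div_mul_div_comm, ← pow_add, Nat.sub_add_cancel k.2.le]
  have hfd : FiniteDimensional KA (IntermediateField.adjoin KA (Set.range v)) :=
    IntermediateField.finiteDimensional_adjoin (by rintro _ ⟨i, rfl⟩; exact hint i)
  obtain ⟨μ, hμi, hμs⟩ := mono_basis v (fun i => (hint i).isAlgebraic)
  have hδ0 : 0 < Module.finrank KA (IntermediateField.adjoin KA (Set.range v)) :=
    Module.finrank_pos
  generalize Module.finrank KA (IntermediateField.adjoin KA (Set.range v)) = δ at μ hμi hμs hδ0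
  set m : Fin δ → Ω := fun k => ∏ i, v i ^ μ k i with hm
  set τ : ℕ := ∑ k, ∑ i, μ k i with hτ
  have hτk : ∀ k, ∑ i, μ k i ≤ τ := fun k =>
    Finset.single_le_sum (f := fun k => ∑ i, μ k i) (fun _ _ => Nat.zero_le _) (Finset.mem_univ k)
  have hMk : ∀ k, s0 ^ τ * m k ∈ Pc κ u τ := by
    intro k
    have h1 : s0 ^ τ * m k = (∏ i, z i ^ μ k i) * s0 ^ (τ - ∑ i, μ k i) := by
      have h2 : s0 ^ τ = s0 ^ (∑ i, μ k i) * s0 ^ (τ - ∑ i, μ k i) := by
        rw [← pow_add, Nat.add_sub_cancel' (hτk k)]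
      rw [h2, mul_right_comm]
      congr 1
      simp only [hm]
      rw [← Finset.prod_pow_eq_pow_sum, ← Finset.prod_mul_distrib]
      refine Finset.prod_congr rfl fun i _ => ?_
      simp only [hv]
      rw [← mul_pow, mul_div_cancel₀ _ hs00]
    rw [h1]
    have h3 := Pc_mul (Pc_prod (κ := κ) (u := u) Finset.univ (fun i => 1 * μ k i)
      (fun i => z i ^ μ k i) (fun i _ => Pc_pow (Pc_X u (Sum.inr i)) _))
      (Pc_pow (Pc_X (κ := κ) u (Sum.inl j0)) (τ - ∑ i, μ k i))
    simp only [one_mul] at h3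
    rwa [Nat.add_sub_cancel' (hτk k)] at h3
  -- part one
  have hbox1 : ∀ γ : (i : β) → Fin (e i), ∃ f : Fin δ → KA,
      (∏ i, v i ^ (γ i : ℕ)) = ∑ k, algebraMap KA Ω (f k) * m k := by
    intro γ
    apply hμs
    exact prod_mem fun i _ => pow_mem
      (IntermediateField.subset_adjoin _ _ (Set.mem_range_self i)) _
  choose f hf using hbox1
  obtain ⟨N, b, hb, hb0, hfb⟩ := common_RF (κ := κ) hj0
    (fun x : ((i : β) → Fin (e i)) × Fin δ => (f x.1 x.2 : Ω)) (fun x => (f x.1 x.2).2)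
  set b' := b * y j0 ^ ((Q - 1) * N) with hb'
  have hQN : N + (Q - 1) * N = Q * N := by
    obtain ⟨Q', rfl⟩ := Nat.exists_eq_succ_of_ne_zero hQ.ne'
    simp only [Nat.succ_eq_add_one, Nat.add_sub_cancel]
    ring
  have hyp : ∀ k, y j0 ^ k ∈ Pc κ y k := fun k => by
    have := Pc_pow (Pc_X (κ := κ) y j0) k
    rwa [one_mul] at this
  have hfb' : ∀ γ k, (f γ k : Ω) * b' ∈ Pc κ y (Q * N) := by
    intro γ k
    rw [hb', ← mul_assoc, ← hQN]
    exact Pc_mul (hfb (γ, k)) (hyp _)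
  have hb'0 : b' ≠ 0 := mul_ne_zero hb0 (pow_ne_zero _ hj0)
  have hpart1 : ∀ t, ∀ x ∈ Pc κ u t, x * b' ∈ LinearMap.range (Lm (Pc κ y (Q * (t + N))) m) := by
    intro t
    apply Pc_induction
    intro ρ hρ
    rw [Fintype.prod_sum_type]
    rw [Fintype.sum_sum_type] at hρ
    choose a ha1 ha2 using fun i => red_pow (he i) (hg i) (hz i) (ρ (Sum.inr i))
    have hzp : ∀ i, z i ^ ρ (Sum.inr i) = ∑ k : Fin (e i), a i k * s0 ^ (k : ℕ) * v i ^ (k : ℕ) := by
      intro i
      rw [ha2 i, Finset.sum_range]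
      refine Finset.sum_congr rfl fun k _ => ?_
      rw [mul_assoc, ← mul_pow]
      simp only [hv]
      rw [mul_div_cancel₀ _ hs00]
    have hprod : ∏ i, u (Sum.inr i) ^ ρ (Sum.inr i) =
        ∑ γ : (i : β) → Fin (e i), ∏ i, (a i (γ i) * s0 ^ (γ i : ℕ) * v i ^ (γ i : ℕ)) := by
      have h1 : ∏ i, u (Sum.inr i) ^ ρ (Sum.inr i) =
          ∏ i, ∑ k : Fin (e i), a i k * s0 ^ (k : ℕ) * v i ^ (k : ℕ) :=
        Finset.prod_congr rfl fun i _ => hzp i
      rw [h1, Finset.prod_univ_sum, Fintype.piFinset_univ]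
    rw [hprod, Finset.mul_sum, Finset.sum_mul]
    refine Submodule.sum_mem _ fun γ _ => ?_
    by_cases hzero : ∃ i, a i (γ i) = 0
    · obtain ⟨i, hi⟩ := hzero
      rw [Finset.prod_eq_zero (Finset.mem_univ i) (by rw [hi, zero_mul, zero_mul]), mul_zero,
        zero_mul]
      exact Submodule.zero_mem _
    push Not at hzero
    have hle : ∀ i, (γ i : ℕ) ≤ ρ (Sum.inr i) := fun i => ((ha1 i (γ i)).resolve_right (hzero i)).1
    have hmem : ∀ i, a i (γ i) ∈ Pc κ y (Q * (ρ (Sum.inr i) - γ i)) := fun i =>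
      ((ha1 i (γ i)).resolve_right (hzero i)).2
    set A : Ω := (∏ j, (y j ^ Q) ^ ρ (Sum.inl j)) * ((∏ i, a i (γ i)) *
      s0 ^ (∑ i, (γ i : ℕ))) with hA
    have hAm : A ∈ Pc κ y (Q * t) := by
      have h1 : ∏ j, (y j ^ Q) ^ ρ (Sum.inl j) ∈ Pc κ y (∑ j, (1 * Q) * ρ (Sum.inl j)) :=
        Pc_prod _ _ _ fun j _ => Pc_pow (Pc_pow (Pc_X y j) Q) _
      have h2 : ∏ i, a i (γ i) ∈ Pc κ y (∑ i, Q * (ρ (Sum.inr i) - γ i)) :=
        Pc_prod _ _ _ fun i _ => hmem i
      have h3 : s0 ^ (∑ i, (γ i : ℕ)) ∈ Pc κ y (Q * (∑ i, (γ i : ℕ))) := Pc_pow (hyp Q) _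
      have h4 := Pc_mul h1 (Pc_mul h2 h3)
      have h5 : ∑ j, (1 * Q) * ρ (Sum.inl j) + (∑ i, Q * (ρ (Sum.inr i) - γ i)
          + Q * (∑ i, (γ i : ℕ))) = Q * t := by
        rw [← hρ, mul_add, Finset.mul_sum, Finset.mul_sum, Finset.mul_sum,
          ← Finset.sum_add_distrib]
        congr 1
        · exact Finset.sum_congr rfl fun j _ => by rw [one_mul]
        · refine Finset.sum_congr rfl fun i _ => ?_
          rw [← mul_add, Nat.sub_add_cancel (hle i)]
      rwa [h5] at h4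
    have hx : (∏ j, u (Sum.inl j) ^ ρ (Sum.inl j)) *
        (∏ i, (a i (γ i) * s0 ^ (γ i : ℕ) * v i ^ (γ i : ℕ))) = A * ∏ i, v i ^ (γ i : ℕ) := by
      rw [Finset.prod_mul_distrib, Finset.prod_mul_distrib, Finset.prod_pow_eq_pow_sum, hA]
      simp only [hu, Sum.elim_inl]
      ring
    rw [hx, hf γ, mul_right_comm, Finset.mul_sum]
    refine ⟨fun k => ⟨A * ((f γ k : Ω) * b'), ?_⟩, ?_⟩
    · rw [mul_add]
      exact Pc_mul hAm (hfb' γ k)
    · rw [Lm_apply]
      refine Finset.sum_congr rfl fun k _ => ?_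
      change A * ((f γ k : Ω) * b') * m k = A * b' * ((f γ k : Ω) * m k)
      ring
  -- part two
  let NU := {ν : Fin (n + 1) → Fin Q // Q ∣ ∑ j, (ν j : ℕ)}
  obtain ⟨N2, b2, hb2, hb20, hfb2⟩ := common_RF (κ := κ) hu00
    (fun ν : NU => ∏ j, (y j / y j0) ^ (ν.1 j : ℕ))
    (fun ν => prod_mem fun j _ => pow_mem (hF j) _)
  have hpart2 : ∀ t, ∀ x ∈ Pc κ y (Q * t), x * b2 ∈ Pc κ u (t + N2) := by
    intro t
    apply Pc_induction
    intro ρ hρ
    have hdm : ∑ j, ρ j = Q * (∑ j, ρ j / Q) + ∑ j, ρ j % Q := by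
      rw [Finset.mul_sum, ← Finset.sum_add_distrib]
      exact Finset.sum_congr rfl fun j _ => (Nat.div_add_mod (ρ j) Q).symm
    have hdvd : Q ∣ ∑ j, ρ j % Q := by
      have : Q ∣ Q * (∑ j, ρ j / Q) + ∑ j, ρ j % Q := by
        rw [← hdm, hρ]; exact Dvd.intro _ rfl
      exact (Nat.dvd_add_right (Dvd.intro _ rfl)).mp this
    let ν : NU := ⟨fun j => ⟨ρ j % Q, Nat.mod_lt _ hQ⟩, hdvd⟩
    obtain ⟨c, hc⟩ := hdvd
    have hct : ∑ j, ρ j / Q + c = t := by
      rw [hρ, hc, ← mul_add] at hdm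
      exact (Nat.eq_of_mul_eq_mul_left hQ hdm).symm
    have h1 : ∏ j, y j ^ ρ j = (∏ j, (y j ^ Q) ^ (ρ j / Q)) * (s0 ^ c *
        ∏ j, (y j / y j0) ^ (ν.1 j : ℕ)) := by
      have e1 : s0 ^ c = ∏ j, y j0 ^ (ρ j % Q) := by
        rw [Finset.prod_pow_eq_pow_sum, hc, hs0, ← pow_mul]
      rw [e1, ← Finset.prod_mul_distrib, ← Finset.prod_mul_distrib]
      refine Finset.prod_congr rfl fun j _ => ?_
      change _ = (y j ^ Q) ^ (ρ j / Q) * (y j0 ^ (ρ j % Q) * (y j / y j0) ^ (ρ j % Q))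
      rw [← mul_pow, mul_div_cancel₀ _ hj0, ← pow_mul, ← pow_add, Nat.div_add_mod]
    rw [h1, mul_assoc, mul_assoc]
    have h2 : ∏ j, (y j ^ Q) ^ (ρ j / Q) ∈ Pc κ u (∑ j, 1 * (ρ j / Q)) :=
      Pc_prod _ _ _ fun j _ => Pc_pow (Pc_X u (Sum.inl j)) _
    have h3 : s0 ^ c ∈ Pc κ u (1 * c) := Pc_pow (Pc_X u (Sum.inl j0)) _
    have h4 := Pc_mul h2 (Pc_mul h3 (hfb2 ν))
    have h5 : ∑ j, 1 * (ρ j / Q) + (1 * c + N2) = t + N2 := by
      simp only [one_mul]; omega
    rwa [h5] at h4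
  refine ⟨δ, N, N2 + τ, fun t => ⟨?_, ?_, hδ0⟩⟩
  · have h1 : (Pc κ u t).map (LinearMap.mulRight κ b')
        ≤ LinearMap.range (Lm (Pc κ y (Q * (t + N))) m) := by
      rintro _ ⟨x, hx, rfl⟩
      exact hpart1 t x hx
    have h2 := Submodule.finrank_mono h1
    have h3 : Module.finrank κ ((Pc κ u t).map (LinearMap.mulRight κ b'))
        = Module.finrank κ (Pc κ u t) :=
      (Submodule.equivMapOfInjective _ (fun x x' hxy => mul_right_cancel₀ hb'0 hxy)
        _).finrank_eq.symm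
    rw [h3] at h2
    refine h2.trans ((LinearMap.finrank_range_le _).trans ?_)
    rw [Module.finrank_pi_fintype]
    simp
  · set V := Pc κ y (Q * t) with hV
    have h1 : Function.Injective (Lm V (fun k => b2 * (s0 ^ τ * m k))) := by
      rw [injective_iff_map_eq_zero]
      intro a ha
      rw [Lm_apply] at ha
      have haF : ∀ k, (a k : Ω) / y j0 ^ (Q * t) ∈ KA := fun k => Pc_div_mem hj0 (a k).2
      rw [Fintype.linearIndependent_iff] at hμi
      have hne : b2 * s0 ^ τ * y j0 ^ (Q * t) ≠ 0 :=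
        mul_ne_zero (mul_ne_zero hb20 (pow_ne_zero _ hs00)) (pow_ne_zero _ hj0)
      have h2 := hμi (fun k => ⟨_, haF k⟩) (by
        have h3 : b2 * s0 ^ τ * y j0 ^ (Q * t) *
            ∑ k, (⟨_, haF k⟩ : KA) • ∏ i, v i ^ μ k i = 0 := by
          rw [← ha, Finset.mul_sum]
          refine Finset.sum_congr rfl fun k _ => ?_
          rw [Algebra.smul_def]
          change b2 * s0 ^ τ * y j0 ^ (Q * t) * ((a k : Ω) / y j0 ^ (Q * t) * m k) = _
          have h4 : y j0 ^ (Q * t) * ((a k : Ω) / y j0 ^ (Q * t)) = a k :=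
            mul_div_cancel₀ _ (pow_ne_zero _ hj0)
          calc b2 * s0 ^ τ * y j0 ^ (Q * t) * ((a k : Ω) / y j0 ^ (Q * t) * m k)
              = b2 * s0 ^ τ * (y j0 ^ (Q * t) * ((a k : Ω) / y j0 ^ (Q * t))) * m k := by ring
            _ = (a k : Ω) * (b2 * (s0 ^ τ * m k)) := by rw [h4]; ring
        exact (mul_eq_zero.mp h3).resolve_left hne)
      funext k
      apply Subtype.ext
      have h3 := congrArg (fun z : KA => (z : Ω)) (h2 k)
      have h4 : (a k : Ω) / y j0 ^ (Q * t) = 0 := h3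
      rw [div_eq_zero_iff] at h4
      exact h4.resolve_right (pow_ne_zero _ hj0)
    have h2 : LinearMap.range (Lm V (fun k => b2 * (s0 ^ τ * m k)))
        ≤ Pc κ u (t + (N2 + τ)) := by
      rintro _ ⟨a, rfl⟩
      rw [Lm_apply]
      refine Submodule.sum_mem _ fun k _ => ?_
      rw [← mul_assoc, ← add_assoc]
      exact Pc_mul (hpart2 t _ (a k).2) (hMk k)
    have h3 := Submodule.finrank_mono h2
    rw [LinearMap.finrank_range_of_inj h1, Module.finrank_pi_fintype] at h3
    simpa using h3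


theorem finish3 (hQ : 0 < Q) (P : Ideal (MvPolynomial (Fin (n + 1) ⊕ β) κ)) (hPh : IsHom P)
    (hP : RingHom.ker (aeval (Sum.elim (fun j => y j ^ Q) z) :
      MvPolynomial (Fin (n + 1) ⊕ β) κ →ₐ[κ] Ω) = P)
    (hy : ∃ j0, y j0 ≠ 0) (he : ∀ i, 0 < e i) (g : β → ℕ → Ω)
    (hg : ∀ i, ∀ k < e i, g i k ∈ Pc κ y (Q * (e i - k)))
    (hz : ∀ i, z i ^ e i = ∑ k ∈ Finset.range (e i), g i k * z i ^ k)
    (hF : ∀ j0, y j0 ≠ 0 →
      ∀ j, y j / y j0 ∈ RF κ (Sum.elim (fun j => y j ^ Q) z) (Sum.inl j0))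
    (hgr : ∃ C : ℕ, ∀ t, hf P t ≤ C * (t + 1)) :
    ∃ K : ℕ, ∀ t ≥ K, (Q : ℤ) ∣ (hf P (t + 1) : ℤ) - hf P t := by
  classical
  obtain ⟨j0, hj0⟩ := hy
  obtain ⟨δ, c1, c2, hc⟩ := compare3 hQ j0 hj0 he g hg hz (hF j0 hj0)
  have hPf : ∀ t, Module.finrank κ (Pc κ (Sum.elim (fun j => y j ^ Q) z) t) = hf P t := by
    intro t
    rw [Pc_finrank, hP]
  have hδ : 0 < δ := (hc 0).2.2
  obtain ⟨C, hC⟩ := hgr
  obtain ⟨K1, a1, hK1⟩ := ev_lin P hPh ⟨C, hC⟩
  have hmono : Monotone (fun t => Module.finrank κ (Pc κ y t)) := by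
    apply monotone_nat_of_le_succ
    intro t
    have h1 : (Pc κ y t).map (LinearMap.mulRight κ (y j0)) ≤ Pc κ y (t + 1) := by
      rintro _ ⟨x, hx, rfl⟩
      exact Pc_mul hx (Pc_X y j0)
    have h2 := Submodule.finrank_mono h1
    have h3 : Module.finrank κ ((Pc κ y t).map (LinearMap.mulRight κ (y j0)))
        = Module.finrank κ (Pc κ y t) :=
      (Submodule.equivMapOfInjective _ (fun x x' hxy => mul_right_cancel₀ hj0 hxy)
        _).finrank_eq.symm
    rw [h3] at h2
    exact h2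
  obtain ⟨K2, b1, hK2⟩ := Pc_ev_lin (κ := κ) y ⟨C * (c2 + 1), fun t => by
    calc Module.finrank κ (Pc κ y t) ≤ Module.finrank κ (Pc κ y (Q * t)) :=
          hmono (Nat.le_mul_of_pos_left _ hQ)
      _ ≤ δ * Module.finrank κ (Pc κ y (Q * t)) := Nat.le_mul_of_pos_left _ hδ
      _ ≤ hf P (t + c2) := by rw [← hPf]; exact (hc t).2.1
      _ ≤ C * (t + c2 + 1) := hC _
      _ ≤ C * (c2 + 1) * (t + 1) := by
        rw [mul_assoc]
        apply Nat.mul_le_mul_left
        nlinarith⟩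
  have hgx : ∀ x, ∀ t ≥ K2, Module.finrank κ (Pc κ y (t + x))
      = Module.finrank κ (Pc κ y t) + b1 * x := by
    intro x t ht
    induction x with
    | zero => simp
    | succ x ih => rw [← add_assoc, hK2 _ (by omega), ih]; ring
  have hslope := slope_eq (fun t => Module.finrank κ (Pc κ y (Q * t))) (fun t => hf P t) 1 δ
    (b1 * Q) a1 K2 K1 c2 c1
    (fun t ht => by
      change Module.finrank κ (Pc κ y (Q * (t + 1))) = _
      rw [mul_add, mul_one]
      exact hgx Q _ (ht.trans (Nat.le_mul_of_pos_left _ hQ)))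
    hK1
    (fun t => by
      rw [one_mul, ← hPf]; exact (hc t).2.1)
    (fun t => by
      change hf P (1 * t) ≤ _
      rw [one_mul, ← hPf]; exact (hc t).1)
    Nat.one_pos
  refine ⟨K1, fun t ht => ?_⟩
  rw [hK1 t ht]
  have h1 : (((hf P t + a1 : ℕ) : ℤ) - hf P t) = (a1 : ℤ) := by push_cast; ring
  rw [h1]
  have h2 : a1 = Q * (δ * b1) := by
    rw [one_mul] at hslope
    rw [← hslope]; ring
  rw [h2]
  exact_mod_cast Dvd.intro _ rfl


end cmp

theorem fin_holds : GFin := by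
  intro κ Ω _ _ _ m β _ Q y z hQ hy hz P hPh hP hF hgr
  choose e he g hg hz' using hz
  exact finish3 hQ P hPh hP hy he g hg hz' hF hgr

end Pool.Agent.Y170.LX
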